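import Mathlib

set_option autoImplicit false

namespace Pool.Agent.Helper102_FactPow

/-- `a(n) = ∑_{i=1}^{n} (i!)^((n-i+1)!)`. -/
def a (n : ℕ) : ℕ := ∑ i ∈ Finset.Icc 1 n, (Nat.factorial i) ^ (Nat.factorial (n - i + 1))

lemma step (n i : ℕ) (hi : 3 ≤ i) (hin : i + 1 ≤ n) :
    (Nat.factorial (i + 1)) ^ (Nat.factorial (n - (i + 1) + 1)) ≤
      (Nat.factorial i) ^ (Nat.factorial (n - i + 1)) := by
  obtain ⟨k, hk⟩ : ∃ k, n = i + 1 + k := ⟨n - (i + 1), by omega⟩
  subst hk
  have e1 : i + 1 + k - (i + 1) + 1 = k + 1 := by omega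
  have e2 : i + 1 + k - i + 1 = k + 1 + 1 := by omega
  rw [e1, e2, Nat.factorial_succ (k + 1), pow_mul]
  apply Nat.pow_le_pow_left
  have h3 : i + 1 ≤ Nat.factorial i := by
    obtain ⟨j, rfl⟩ : ∃ j, i = j + 3 := ⟨i - 3, by omega⟩
    clear hi hin e1 e2
    induction j with
    | zero => decide
    | succ j ih =>
      have : Nat.factorial (j + 1 + 3) = (j + 4) * Nat.factorial (j + 3) := by
        rw [show j + 1 + 3 = (j + 3) + 1 by ring, Nat.factorial_succ]
      rw [this]
      nlinarith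
  have hpos : 1 ≤ Nat.factorial i := Nat.factorial_pos i
  calc Nat.factorial (i + 1) = (i + 1) * Nat.factorial i := Nat.factorial_succ i
    _ ≤ Nat.factorial i * Nat.factorial i := Nat.mul_le_mul_right _ h3
    _ = Nat.factorial i ^ 2 := by ring
    _ ≤ Nat.factorial i ^ (k + 1 + 1) := Nat.pow_le_pow_right hpos (by omega)

lemma term_le (n i : ℕ) (hi : 3 ≤ i) (hin : i ≤ n) :
    (Nat.factorial i) ^ (Nat.factorial (n - i + 1)) ≤ 6 ^ (Nat.factorial (n - 2)) := by
  induction i, hi using Nat.le_induction with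
  | base =>
    have : n - 3 + 1 = n - 2 := by omega
    rw [this]
    exact le_of_eq (by norm_num [Nat.factorial])
  | succ i hi ih => exact (step n i hi hin).trans (ih (by omega))

lemma a_split (n : ℕ) (hn : 3 ≤ n) :
    a n = 1 + 2 ^ (Nat.factorial (n - 1)) +
      ∑ i ∈ Finset.Icc 3 n, (Nat.factorial i) ^ (Nat.factorial (n - i + 1)) := by
  unfold a
  rw [← Finset.sum_subset (s₁ := insert 1 (insert 2 (Finset.Icc 3 n)))]
  · rw [Finset.sum_insert (by simp), Finset.sum_insert (by simp)]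
    have : n - 2 + 1 = n - 1 := by omega
    rw [this]
    simp [add_assoc]
  · intro x hx
    simp only [Finset.mem_insert, Finset.mem_Icc] at hx ⊢
    omega
  · intro x hx hx'
    simp only [Finset.mem_insert, Finset.mem_Icc] at hx hx'
    omega

lemma sum_le (n : ℕ) :
    ∑ i ∈ Finset.Icc 3 n, (Nat.factorial i) ^ (Nat.factorial (n - i + 1)) ≤
      (n - 2) * 6 ^ (Nat.factorial (n - 2)) := by
  calc ∑ i ∈ Finset.Icc 3 n, (Nat.factorial i) ^ (Nat.factorial (n - i + 1))
      ≤ ∑ i ∈ Finset.Icc 3 n, 6 ^ (Nat.factorial (n - 2)) := by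
        apply Finset.sum_le_sum
        intro i hi
        rw [Finset.mem_Icc] at hi
        exact term_le n i hi.1 hi.2
    _ = (n - 2) * 6 ^ (Nat.factorial (n - 2)) := by
        rw [Finset.sum_const, Nat.card_Icc, smul_eq_mul]
        congr 1

lemma eight_six (m : ℕ) : (3 + m) * 6 ^ m ≤ 3 * 8 ^ m := by
  induction m with
  | zero => norm_num
  | succ m ih =>
    rw [pow_succ, pow_succ]
    nlinarith [pow_pos (show 0 < 6 by norm_num) m]

lemma fact_ge (n : ℕ) (hn : 7 ≤ n) : 3 * (n - 2) ≤ Nat.factorial (n - 2) := by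
  obtain ⟨k, rfl⟩ : ∃ k, n = k + 7 := ⟨n - 7, by omega⟩
  have : k + 7 - 2 = (k + 4) + 1 := by omega
  rw [this, Nat.factorial_succ]
  have h4 : 3 ≤ Nat.factorial (k + 4) :=
    (show 3 ≤ Nat.factorial 4 by decide).trans (Nat.factorial_le (by omega))
  nlinarith

lemma rest_lt (n : ℕ) (hn : 7 ≤ n) :
    1 + (n - 2) * 6 ^ (Nat.factorial (n - 2)) < 8 ^ (Nat.factorial (n - 2)) := by
  have h1 := fact_ge n hn
  set m := Nat.factorial (n - 2) with hm
  have h2 := eight_six m
  have h3 : 0 < 6 ^ m := pow_pos (by norm_num) m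
  have h4 : 1 < 6 ^ m := Nat.one_lt_pow (by have := Nat.factorial_pos (n - 2); omega) (by norm_num)
  nlinarith

lemma between (X p N b : ℕ) (h1 : X ^ p < N) (h2 : N < (X + 1) ^ p) : N ≠ b ^ p := by
  intro h
  rw [h] at h1 h2
  have := lt_of_pow_lt_pow_left₀ p (Nat.zero_le _) h1
  have := lt_of_pow_lt_pow_left₀ p (Nat.zero_le _) h2
  omega

lemma main_large (n p b : ℕ) (hn : 7 ≤ n) (hp : 2 ≤ p) (hdvd : p ∣ Nat.factorial (n - 1)) :
    a n ≠ b ^ p := by
  obtain ⟨q, hq⟩ := hdvd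
  set m := Nat.factorial (n - 2) with hm
  have hfac : Nat.factorial (n - 1) = (n - 1) * m := by
    have : n - 1 = (n - 2) + 1 := by omega
    rw [hm, this, Nat.factorial_succ]
  have h2pow : (2 ^ q) ^ p = 2 ^ (Nat.factorial (n - 1)) := by
    rw [← pow_mul, hq, mul_comm]
  apply between (2 ^ q) p (a n) b
  · rw [h2pow, a_split n (by omega)]
    have : 0 ≤ ∑ i ∈ Finset.Icc 3 n, (Nat.factorial i) ^ (Nat.factorial (n - i + 1)) := Nat.zero_le _
    omega
  · have hX : 1 ≤ 2 ^ q := Nat.one_le_two_pow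
    have hpow : 8 ^ m ≤ (2 ^ q) ^ (p - 1) := by
      have hsq : (8 ^ m) ^ 2 ≤ ((2 ^ q) ^ (p - 1)) ^ 2 := by
        calc (8 ^ m) ^ 2 = 2 ^ (6 * m) := by
              rw [show (8 : ℕ) = 2 ^ 3 by norm_num, ← pow_mul, ← pow_mul]
              congr 1
              ring
          _ ≤ 2 ^ ((n - 1) * m) := Nat.pow_le_pow_right (by norm_num) (Nat.mul_le_mul_right _ (by omega))
          _ = (2 ^ q) ^ p := by rw [h2pow, hfac]
          _ ≤ (2 ^ q) ^ ((p - 1) * 2) := Nat.pow_le_pow_right hX (by omega)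
          _ = ((2 ^ q) ^ (p - 1)) ^ 2 := by rw [pow_mul]
      exact (pow_le_pow_iff_left₀ (Nat.zero_le _) (Nat.zero_le _) (by norm_num)).1 hsq
    have hstep : (2 ^ q) ^ p + (2 ^ q) ^ (p - 1) ≤ (2 ^ q + 1) ^ p := by
      obtain ⟨r, rfl⟩ : ∃ r, p = r + 1 := ⟨p - 1, by omega⟩
      have : r + 1 - 1 = r := by omega
      rw [this, pow_succ, pow_succ]
      have hr : (2 ^ q) ^ r ≤ (2 ^ q + 1) ^ r := Nat.pow_le_pow_left (by omega) r
      nlinarith
    have hr := rest_lt n hn
    have hs := sum_le n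
    rw [a_split n (by omega), ← h2pow]
    rw [← hm] at hr hs
    omega

lemma a5 : a 5 = 16824569 := by decide +kernel

lemma a6 : a 6 = 1 + 2 ^ 120 + 6 ^ 24 + 24 ^ 6 + 120 ^ 2 + 720 := by decide +kernel

lemma prime_lt_five {p : ℕ} (hp : p.Prime) (h : p < 5) : p = 2 ∨ p = 3 := by
  have := hp.two_le
  interval_cases p
  · exact Or.inl rfl
  · exact Or.inr rfl
  · exact absurd hp (by decide)

lemma prime_lt_six {p : ℕ} (hp : p.Prime) (h : p < 6) : p = 2 ∨ p = 3 ∨ p = 5 := by
  have := hp.two_le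
  interval_cases p
  · exact Or.inl rfl
  · exact Or.inr (Or.inl rfl)
  · exact absurd hp (by decide)
  · exact Or.inr (Or.inr rfl)

lemma main (n p b : ℕ) (hn : 5 ≤ n) (hp : p.Prime) (hpn : p < n) : a n ≠ b ^ p := by
  rcases Nat.lt_or_ge n 7 with h | h
  · have : n = 5 ∨ n = 6 := by omega
    rcases this with rfl | rfl
    · rcases prime_lt_five hp hpn with rfl | rfl
      · exact between 4101 2 _ b (by rw [a5]; norm_num) (by rw [a5]; norm_num)
      · exact between 256 3 _ b (by rw [a5]; norm_num) (by rw [a5]; norm_num)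
    · rcases prime_lt_six hp hpn with rfl | rfl | rfl
      · exact between (2 ^ 60 + 2) 2 _ b (by rw [a6]; norm_num) (by rw [a6]; norm_num)
      · exact between (2 ^ 40) 3 _ b (by rw [a6]; norm_num) (by rw [a6]; norm_num)
      · exact between (2 ^ 24) 5 _ b (by rw [a6]; norm_num) (by rw [a6]; norm_num)
  · exact main_large n p b h hp.two_le ((hp.dvd_factorial).2 (by omega))

lemma prime_factor_ge (n b e : ℕ) (hn : 4 < n) (hab : a n = b ^ e) (p : ℕ) (hp : p.Prime)
    (hpe : p ∣ e) : n ≤ p := by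
  by_contra hlt
  obtain ⟨f, rfl⟩ := hpe
  apply main n p (b ^ f) (by omega) hp (by omega)
  rw [hab, ← pow_mul, mul_comm]

/-! ### Congruences -/

lemma a_mod_prime (n q : ℕ) (hq : q.Prime) (hqn : 2 * q ≤ n + 3) (h3 : 3 ≤ q) :
    ((a n : ℕ) : ZMod q) = -1 := by
  have : Fact q.Prime := ⟨hq⟩
  have hterm : ∀ i ∈ Finset.Icc 1 n,
      (((Nat.factorial i) ^ (Nat.factorial (n - i + 1)) : ℕ) : ZMod q) =
        if i < q then 1 else 0 := by
    intro i hi
    rw [Finset.mem_Icc] at hi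
    push_cast
    split_ifs with h
    · have hne : ((Nat.factorial i : ℕ) : ZMod q) ≠ 0 := by
        rw [Ne, ZMod.natCast_eq_zero_iff]
        intro hd
        have := (hq.dvd_factorial).1 hd
        omega
      have hd : (q - 1) ∣ Nat.factorial (n - i + 1) :=
        Nat.dvd_factorial (by omega) (by omega)
      obtain ⟨c, hc⟩ := hd
      rw [hc, pow_mul, ZMod.pow_card_sub_one_eq_one hne, one_pow]
    · have h0 : ((Nat.factorial i : ℕ) : ZMod q) = 0 := by
        rw [ZMod.natCast_eq_zero_iff]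
        exact Nat.dvd_factorial hq.pos (by omega)
      rw [h0]
      exact zero_pow (Nat.factorial_ne_zero _)
  unfold a
  rw [Nat.cast_sum, Finset.sum_congr rfl hterm, ← Finset.sum_filter]
  have hset : (Finset.Icc 1 n).filter (fun i => i < q) = Finset.Ico 1 q := by
    ext i
    simp only [Finset.mem_filter, Finset.mem_Icc, Finset.mem_Ico]
    omega
  rw [hset, Finset.sum_const, Nat.card_Ico, nsmul_eq_mul, mul_one, Nat.cast_sub (by omega)]
  simp

lemma base_mod_prime (n b e : ℕ) (hn : 4 < n) (he : 1 < e) (hab : a n = b ^ e) (q : ℕ)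
    (hq : q.Prime) (h2 : q ≠ 2) (hqn : 2 * q ≤ n + 3) : q ∣ b + 1 := by
  have : Fact q.Prime := ⟨hq⟩
  have h3 : 3 ≤ q := by
    have := hq.two_le
    omega
  have hfac := prime_factor_ge n b e hn hab
  have hodd : Odd e := by
    rw [← Nat.not_even_iff_odd]
    intro hev
    have := hfac 2 Nat.prime_two hev.two_dvd
    omega
  have hcop : Nat.Coprime e (q - 1) := by
    apply Nat.Coprime.symm
    apply Nat.coprime_of_dvd
    intro k hk hk1 hk2
    have h4 := hfac k hk hk2
    have h5 := Nat.le_of_dvd (by omega) hk1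
    omega
  have h1 : ((b : ZMod q)) ^ e = -1 := by
    rw [← a_mod_prime n q hq hqn h3, hab]
    push_cast
    rfl
  have hb0 : (-(b : ZMod q)) ≠ 0 := by
    intro h0
    have : (b : ZMod q) = 0 := by simpa using h0
    rw [this, zero_pow (by omega)] at h1
    have h6 : (1 : ZMod q) = 0 := by
      have := congrArg Neg.neg h1
      simpa using this.symm
    exact one_ne_zero h6
  have hneg : (-(b : ZMod q)) ^ e = 1 := by
    rw [hodd.neg_pow, h1, neg_neg]
  have hone : (-(b : ZMod q)) ^ (q - 1) = 1 := ZMod.pow_card_sub_one_eq_one hb0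
  have hd1 := orderOf_dvd_of_pow_eq_one hneg
  have hd2 := orderOf_dvd_of_pow_eq_one hone
  have hd3 : orderOf (-(b : ZMod q)) = 1 := by
    have := Nat.dvd_gcd hd1 hd2
    rw [hcop] at this
    exact Nat.dvd_one.1 this
  rw [orderOf_eq_one_iff] at hd3
  rw [← ZMod.natCast_eq_zero_iff]
  push_cast
  have : (b : ZMod q) = -1 := by
    rw [← neg_neg (b : ZMod q), hd3]
  rw [this]
  ring

lemma two_pow_dvd_factorial (i : ℕ) : 2 ^ (i / 2) ∣ Nat.factorial i := by
  induction i using Nat.strong_induction_on with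
  | _ i ih =>
    rcases Nat.lt_or_ge i 2 with h | h
    · have : i / 2 = 0 := by omega
      rw [this]
      simp
    · obtain ⟨j, rfl⟩ : ∃ j, i = j + 2 := ⟨i - 2, by omega⟩
      have h1 := ih j (by omega)
      have h2 : (j + 2) / 2 = j / 2 + 1 := by omega
      rw [h2, pow_succ, show j + 2 = (j + 1) + 1 by ring, Nat.factorial_succ, Nat.factorial_succ]
      have h3 : 2 ∣ (j + 1 + 1) * (j + 1) := by
        rw [mul_comm]
        exact (Nat.even_mul_succ_self (j + 1)).two_dvd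
      obtain ⟨c, hc⟩ := h3
      obtain ⟨d, hd⟩ := h1
      refine ⟨d * c, ?_⟩
      calc (j + 1 + 1) * ((j + 1) * Nat.factorial j)
          = ((j + 1 + 1) * (j + 1)) * Nat.factorial j := by ring
        _ = (2 * c) * (2 ^ (j / 2) * d) := by rw [hc, ← hd]
        _ = 2 ^ (j / 2) * 2 * (d * c) := by ring

lemma a_mod_two_pow (n : ℕ) (hn : 2 ≤ n) : 2 ^ (n / 2) ∣ a n - 1 := by
  have hsplit : a n = 1 + ∑ i ∈ Finset.Icc 2 n, (Nat.factorial i) ^ (Nat.factorial (n - i + 1)) := by
    unfold a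
    rw [← Finset.sum_subset (s₁ := insert 1 (Finset.Icc 2 n))]
    · rw [Finset.sum_insert (by simp)]
      simp
    · intro x hx
      simp only [Finset.mem_insert, Finset.mem_Icc] at hx ⊢
      omega
    · intro x hx hx'
      simp only [Finset.mem_insert, Finset.mem_Icc] at hx hx'
      omega
  rw [hsplit, Nat.add_sub_cancel_left]
  apply Finset.dvd_sum
  intro i hi
  rw [Finset.mem_Icc] at hi
  have h1 : (2 ^ (i / 2)) ^ (Nat.factorial (n - i + 1)) ∣
      (Nat.factorial i) ^ (Nat.factorial (n - i + 1)) :=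
    pow_dvd_pow_of_dvd (two_pow_dvd_factorial i) _
  refine dvd_trans ?_ h1
  rw [← pow_mul]
  apply pow_dvd_pow
  have h2 : n - i + 1 ≤ Nat.factorial (n - i + 1) := Nat.self_le_factorial _
  have h3 : 1 ≤ i / 2 := by omega
  obtain ⟨k, rfl⟩ : ∃ k, n = i + k := ⟨n - i, by omega⟩
  have h4 : i + k - i + 1 = k + 1 := by omega
  rw [h4] at h2 ⊢
  calc (i + k) / 2 ≤ i / 2 + k := by omega
    _ ≤ i / 2 * (k + 1) := by nlinarith
    _ ≤ i / 2 * Nat.factorial (k + 1) := Nat.mul_le_mul_left _ h2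

lemma base_mod_two_pow (n b e : ℕ) (hn : 4 < n) (he : 1 < e) (hab : a n = b ^ e) :
    b ≡ 1 [MOD 2 ^ (n / 2)] := by
  have hfac := prime_factor_ge n b e hn hab
  have hodd : Odd e := by
    rw [← Nat.not_even_iff_odd]
    intro hev
    have := hfac 2 Nat.prime_two hev.two_dvd
    omega
  have hpos : 1 ≤ a n := by
    rw [a_split n (by omega), add_assoc]
    exact Nat.le_add_right _ _
  have h1 : ((b : ZMod (2 ^ (n / 2)))) ^ e = 1 := by
    have h2 : ((a n - 1 : ℕ) : ZMod (2 ^ (n / 2))) = 0 := by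
      rw [ZMod.natCast_eq_zero_iff]
      exact a_mod_two_pow n (by omega)
    rw [Nat.cast_sub hpos, hab] at h2
    push_cast at h2
    exact sub_eq_zero.1 h2
  have hu : IsUnit ((b : ZMod (2 ^ (n / 2)))) := IsUnit.of_pow_eq_one h1 (by omega)
  obtain ⟨u, hu⟩ := hu
  have h3 : u ^ e = 1 := by
    ext
    rw [Units.val_pow_eq_pow_val, hu, h1, Units.val_one]
  have h4 : u ^ Nat.totient (2 ^ (n / 2)) = 1 := ZMod.pow_totient u
  have h5 : Nat.Coprime e (Nat.totient (2 ^ (n / 2))) := by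
    rw [Nat.totient_prime_pow Nat.prime_two (by omega)]
    simp only [Nat.add_one_sub_one, mul_one]
    exact Nat.Coprime.pow_right _ (Nat.coprime_two_right.2 hodd)
  have hd1 := orderOf_dvd_of_pow_eq_one h3
  have hd2 := orderOf_dvd_of_pow_eq_one h4
  have hd3 : orderOf u = 1 := by
    have := Nat.dvd_gcd hd1 hd2
    rw [h5] at this
    exact Nat.dvd_one.1 this
  rw [orderOf_eq_one_iff] at hd3
  rw [hd3] at hu
  rw [← ZMod.natCast_eq_natCast_iff]
  rw [← hu]
  simp

end Pool.Agent.Helper102_FactPow
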